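import Pool.Agent.H18.TD.Targets

/-!
# A lattice orthogonal to a space (MP_58ae59_nt, row ZR3)
-/

set_option autoImplicit false

open Polynomial Module Filter Topology Pool.Agent.H18.TD Pool.Agent.H72.HR

namespace Pool.Agent.H69.TD

theorem pf_ZR3 : T_ZR3 := by
  intro c G U hGU
  classical
  let N : Submodule ℤ (Fin c → ℤ) := AddSubgroup.toIntSubmodule G
  have hN : finrank ℤ G = finrank ℤ N := rfl
  obtain ⟨n, b⟩ := Submodule.basisOfPid (Pi.basisFun ℤ (Fin c)) N
  have hn : finrank ℤ N = n := by rw [finrank_eq_card_basis b, Fintype.card_fin]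
  let cst : (Fin c → ℤ) →ₗ[ℤ] (Fin c → ℚ) :=
    { toFun := fun v i => (v i : ℚ)
      map_add' := by intro v w; funext i; simp
      map_smul' := by intro c v; funext i; simp }
  have hcinj : Function.Injective cst := by
    intro v w h
    funext i
    have := congrFun h i
    simpa [cst] using this
  have h1 : LinearIndependent ℤ (fun j => cst (b j : Fin c → ℤ)) := by
    have h2 : LinearIndependent ℤ (fun j => (b j : Fin c → ℤ)) :=
      b.linearIndependent.map' N.subtype (Submodule.ker_subtype N)
    exact h2.map' cst (LinearMap.ker_eq_bot.2 hcinj)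
  have h3 : LinearIndependent ℚ (fun j => cst (b j : Fin c → ℤ)) :=
    (LinearIndependent.iff_fractionRing (R := ℤ) (K := ℚ)).1 h1
  let V : Matrix (Fin n) (Fin c) ℚ := fun i => cst (b i : Fin c → ℤ)
  have hV : V.rank = n := by
    have h4 : V.rank = Fintype.card (Fin n) := LinearIndependent.rank_matrix (M := V) h3
    rw [h4, Fintype.card_fin]
  have hle : U ≤ LinearMap.ker V.mulVecLin := by
    intro v hv
    rw [LinearMap.mem_ker]
    funext i
    have h4 := hGU (b i) (b i).2 v hv
    have h5 : V.mulVecLin v i = ∑ j, ((b i : Fin c → ℤ) j : ℚ) * v j := rfl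
    rw [h5, Pi.zero_apply, ← h4]
    exact Finset.sum_congr rfl fun j _ => mul_comm _ _
  have h5 := LinearMap.finrank_range_add_finrank_ker V.mulVecLin
  have h6 := Submodule.finrank_mono hle
  rw [Module.finrank_fin_fun] at h5
  have h7 : finrank ℚ (LinearMap.range V.mulVecLin) = n := hV
  rw [hN, hn]
  omega

end Pool.Agent.H69.TD
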